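import Pool.Agent.helper86.OF.SpecM

/-!
# Module COR (helper78): the core theorem
-/

open scoped BigOperators

namespace Pool.Agent.OF

noncomputable section

open Classical

theorem COR_split {V : Type} [Fintype V] (G : SimpleGraph V) (A : Finset V) (v : V) :
    dg (innerG G A) v + dg (crossG G A) v = dg G v := by
  have h1 : (Finset.univ.filter fun w => G.Adj v w) =
      (Finset.univ.filter fun w => (innerG G A).Adj v w) ∪
      (Finset.univ.filter fun w => (crossG G A).Adj v w) := by
    ext w
    constructor
    · intro hw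
      have hw1 : G.Adj v w := (Finset.mem_filter.1 hw).2
      by_cases h : v ∈ A ↔ w ∈ A
      · exact Finset.mem_union_left _ (Finset.mem_filter.2 ⟨Finset.mem_univ _, hw1, h⟩)
      · exact Finset.mem_union_right _ (Finset.mem_filter.2 ⟨Finset.mem_univ _, hw1, h⟩)
    · intro hw
      rcases Finset.mem_union.1 hw with hw | hw
      · exact Finset.mem_filter.2 ⟨Finset.mem_univ _, (Finset.mem_filter.1 hw).2.1⟩
      · exact Finset.mem_filter.2 ⟨Finset.mem_univ _, (Finset.mem_filter.1 hw).2.1⟩
  have h2 : Disjoint (Finset.univ.filter fun w => (innerG G A).Adj v w)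
      (Finset.univ.filter fun w => (crossG G A).Adj v w) := by
    rw [Finset.disjoint_left]
    intro w hw hw'
    exact (Finset.mem_filter.1 hw').2.2 (Finset.mem_filter.1 hw).2.2
  have h3 : dg G v = (Finset.univ.filter fun w => G.Adj v w).card := rfl
  rw [h3, h1, Finset.card_union_of_disjoint h2]
  rfl

theorem COR_rem {V : Type} [Fintype V] (G : SimpleGraph V) (k : ℕ) (M : ℕ → V → V)
    (hmat : ∀ i < k, MatIn G (M i))
    (hdis : ∀ i < k, ∀ j < k, i ≠ j → ∀ v, M i v ≠ v → M i v ≠ M j v) (x : V) :
    dg (remG G M (Finset.range k)) x + ((Finset.range k).filter fun i => M i x ≠ x).card =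
      dg G x := by
  have hinv : ∀ i < k, ∀ v w, M i w = v → M i v = w := fun i hi v w h => by
    rw [← h]
    exact (hmat i hi).1 w
  have heq : (Finset.univ.filter fun w => G.Adj x w) =
      (Finset.univ.filter fun w => (remG G M (Finset.range k)).Adj x w) ∪
      ((Finset.range k).filter fun i => M i x ≠ x).image (fun i => M i x) := by
    ext w
    constructor
    · intro hw
      have hw1 : G.Adj x w := (Finset.mem_filter.1 hw).2
      by_cases h : ∀ i ∈ Finset.range k, M i x ≠ w ∧ M i w ≠ x
      · exact Finset.mem_union_left _ (Finset.mem_filter.2 ⟨Finset.mem_univ _, hw1, h⟩)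
      · push Not at h
        obtain ⟨i, hi, h⟩ := h
        have h2 : M i x = w := by
          by_cases h3 : M i x = w
          · exact h3
          · exact hinv i (Finset.mem_range.1 hi) x w (h h3)
        refine Finset.mem_union_right _ (Finset.mem_image.2 ⟨i, Finset.mem_filter.2 ⟨hi, ?_⟩, h2⟩)
        rw [h2]
        exact fun h4 => hw1.ne h4.symm
    · intro hw
      rcases Finset.mem_union.1 hw with hw | hw
      · exact Finset.mem_filter.2 ⟨Finset.mem_univ _, (Finset.mem_filter.1 hw).2.1⟩
      · obtain ⟨i, hi, rfl⟩ := Finset.mem_image.1 hw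
        have hi' := Finset.mem_filter.1 hi
        exact Finset.mem_filter.2 ⟨Finset.mem_univ _,
          (hmat i (Finset.mem_range.1 hi'.1)).2 x hi'.2⟩
  have hdj : Disjoint (Finset.univ.filter fun w => (remG G M (Finset.range k)).Adj x w)
      (((Finset.range k).filter fun i => M i x ≠ x).image (fun i => M i x)) := by
    rw [Finset.disjoint_left]
    intro w hw hw'
    obtain ⟨i, hi, h⟩ := Finset.mem_image.1 hw'
    exact ((Finset.mem_filter.1 hw).2.2 i (Finset.mem_filter.1 hi).1).1 h
  have hcard : (((Finset.range k).filter fun i => M i x ≠ x).image (fun i => M i x)).card =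
      ((Finset.range k).filter fun i => M i x ≠ x).card := by
    refine Finset.card_image_of_injOn ?_
    intro i hi j hj hij
    by_contra hne
    have hi' := Finset.mem_filter.1 (Finset.mem_coe.1 hi)
    have hj' := Finset.mem_filter.1 (Finset.mem_coe.1 hj)
    exact hdis i (Finset.mem_range.1 hi'.1) j (Finset.mem_range.1 hj'.1) hne x hi'.2 hij
  have h1 : dg G x = (Finset.univ.filter fun w => G.Adj x w).card := rfl
  have h2 : dg (remG G M (Finset.range k)) x =
    (Finset.univ.filter fun w => (remG G M (Finset.range k)).Adj x w).card := rfl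
  rw [h1, h2, heq, Finset.card_union_of_disjoint hdj, hcard]

theorem COR_shift (k q : ℕ) (hk : k ≤ q) (P : ℕ → Prop) [DecidablePred P] :
    ((Finset.range q).filter P).card = ((Finset.range k).filter P).card +
      ((Finset.range (q - k)).filter fun i => P (k + i)).card := by
  obtain ⟨m, rfl⟩ := Nat.exists_eq_add_of_le hk
  rw [Nat.add_sub_cancel_left]
  have h1 : (Finset.range (k + m)).filter P = (Finset.range k).filter P ∪
      ((Finset.range m).filter fun i => P (k + i)).image (fun i => k + i) := by
    ext j
    constructor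
    · intro hj
      have hj' := Finset.mem_filter.1 hj
      have hj2 := Finset.mem_range.1 hj'.1
      by_cases h : j < k
      · exact Finset.mem_union_left _ (Finset.mem_filter.2 ⟨Finset.mem_range.2 h, hj'.2⟩)
      · have h2 : k + (j - k) = j := by omega
        refine Finset.mem_union_right _ (Finset.mem_image.2 ⟨j - k, Finset.mem_filter.2 ⟨?_, ?_⟩, h2⟩)
        · exact Finset.mem_range.2 (by omega)
        · rw [h2]
          exact hj'.2
    · intro hj
      rcases Finset.mem_union.1 hj with hj | hj
      · have hj' := Finset.mem_filter.1 hj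
        have hj2 := Finset.mem_range.1 hj'.1
        exact Finset.mem_filter.2 ⟨Finset.mem_range.2 (by omega), hj'.2⟩
      · obtain ⟨i, hi, rfl⟩ := Finset.mem_image.1 hj
        have hi' := Finset.mem_filter.1 hi
        have hi2 := Finset.mem_range.1 hi'.1
        exact Finset.mem_filter.2 ⟨Finset.mem_range.2 (by omega), hi'.2⟩
  have h2 : Disjoint ((Finset.range k).filter P)
      (((Finset.range m).filter fun i => P (k + i)).image (fun i => k + i)) := by
    rw [Finset.disjoint_left]
    intro j hj hj'
    obtain ⟨i, _, h⟩ := Finset.mem_image.1 hj'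
    have := Finset.mem_range.1 (Finset.mem_filter.1 hj).1
    omega
  rw [h1, Finset.card_union_of_disjoint h2, Finset.card_image_of_injective _
    (fun a b h => Nat.add_left_cancel h)]

theorem COR_sz {V : Type} [Fintype V] (A X : Finset V) (U : ℕ) (θ : ℝ)
    (hU : (U : ℝ) ≤ 2 * θ * Fintype.card V)
    (h : |((X ∩ A).card : ℝ) - (X \ A).card| ≤ U) :
    ((X ∩ A).card : ℝ) ≤ (1 / 2 + θ) * Fintype.card V ∧
      ((X \ A).card : ℝ) ≤ (1 / 2 + θ) * Fintype.card V := by
  have h1 : (X ∩ A).card + (X \ A).card = X.card := Finset.card_inter_add_card_sdiff X A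
  have h2 : ((X ∩ A).card : ℝ) + (X \ A).card = X.card := by exact_mod_cast h1
  have h3 : (X.card : ℝ) ≤ Fintype.card V := by exact_mod_cast Finset.card_le_univ X
  obtain ⟨h4, h5⟩ := abs_le.1 h
  constructor <;> nlinarith

theorem COR (hCKP : CKP_stmt) (hCMP : CMP_stmt) : COR_stmt := by
  intro ε ζ hε hζ
  obtain ⟨θc, hθc, hc⟩ := hCMP (ε / 4) ζ (by linarith) hζ
  obtain ⟨θk, hθk, hk⟩ := hCKP ε ζ θc hε hζ hθc
  refine ⟨min θk θc, lt_min hθk hθc, fun U => ?_⟩
  obtain ⟨U3, N1, hk⟩ := hk U (100 * (U + 1))
  obtain ⟨N2, hc⟩ := hc U U3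
  refine ⟨max (max N1 N2) (⌈(U : ℝ) / (2 * θc)⌉₊), ?_⟩
  intro V _ G A X q f H h hN hG
  have hN1 : N1 ≤ Fintype.card V := le_trans (le_trans (le_max_left _ _) (le_max_left _ _)) hN
  have hN2 : N2 ≤ Fintype.card V := le_trans (le_trans (le_max_right _ _) (le_max_left _ _)) hN
  have hN3 : (U : ℝ) ≤ 2 * θc * Fintype.card V := by
    have h1 : (U : ℝ) / (2 * θc) ≤ Fintype.card V :=
      (Nat.le_ceil _).trans (by exact_mod_cast le_trans (le_max_right _ _) hN)
    rw [div_le_iff₀ (by positivity)] at h1
    linarith
  have hNn : (0 : ℝ) ≤ Fintype.card V := Nat.cast_nonneg _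
  rcases X.eq_empty_or_nonempty with hXe | hXne
  · refine ⟨fun _ v => v, ?_, ?_, ?_, ?_⟩
    · exact fun i _ => ⟨fun v => rfl, fun v hv => absurd rfl hv⟩
    · intro i _ x hx
      rw [hXe] at hx
      exact absurd hx (Finset.notMem_empty x)
    · exact fun i _ j _ _ v hv => absurd rfl hv
    · intro v w hvw _
      have h1 := (hG.onX v w hvw).1
      rw [hXe] at h1
      exact absurd h1 (Finset.notMem_empty v)
  -- monotonicity
  have hG' : CoreH G A X q f H h ε ζ θk U :=
    { onX := hG.onX
      big := hG.big
      le := hG.le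
      fl := hG.fl
      fu := hG.fu
      deg := hG.deg
      Hs := hG.Hs
      lit := fun x hx => ⟨(hG.lit x hx).1.trans (mul_le_mul_of_nonneg_right (min_le_left _ _) hNn),
        (hG.lit x hx).2.trans (mul_le_mul_of_nonneg_right (min_le_left _ _) hNn)⟩
      bal := hG.bal
      spl := fun x hx => (hG.spl x hx).trans
        (mul_le_mul_of_nonneg_right (min_le_left _ _) hNn)
      siz := hG.siz }
  obtain ⟨k, M1, E0, hkq, hkl, hmat, hcov, hdis, hdW, hdC, hE0, hE0d, hE0A, hE0B⟩ :=
    hk V G A X q f H h hN1 hXne hG'
  have hle : remG G M1 (Finset.range k) ≤ G := fun v w hvw => hvw.1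
  have hrem := COR_rem G k M1 hmat hdis
  have hsz := COR_sz A X U θc hN3 hG.siz
  have hcard : ∀ x ∈ X, ((Finset.range k).filter fun i => M1 i x ≠ x).card +
      ((Finset.range k).filter fun i => x ∈ H i).card = k := by
    intro x hx
    have h1 : ((Finset.range k).filter fun i => M1 i x ≠ x) =
        (Finset.range k).filter fun i => ¬ x ∈ H i := by
      refine Finset.filter_congr fun i hi => ?_
      exact not_congr (hcov i (Finset.mem_range.1 hi) x hx)
    rw [h1, Nat.add_comm, Finset.card_filter_add_card_filter_not, Finset.card_range]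
  have hMid : MidH (innerG (remG G M1 (Finset.range k)) A) (crossG (remG G M1 (Finset.range k)) A)
      E0 A X (q - k) f (fun i => H (k + i)) h (ε / 4) ζ θc U U3 :=
    { wX := fun v w hvw => ⟨(hG.onX v w hvw.1.1).1, (hG.onX v w hvw.1.1).2, hvw.2⟩
      cX := fun v w hvw => ⟨(hG.onX v w hvw.1.1).1, (hG.onX v w hvw.1.1).2, hvw.2⟩
      ql := hkl
      le := by
        have := hG.le
        omega
      fl := hG.fl
      deg := by
        intro x hx
        have h1 := hG.deg x hx
        have h2 := hrem x
        have h3 := COR_split (remG G M1 (Finset.range k)) A x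
        have h4 := hcard x hx
        have h5 := COR_shift k q hkq (fun i => x ∈ H i)
        have h6 : ((Finset.range q).filter fun i => x ∈ H i).card =
          ((Finset.range k).filter fun i => x ∈ H i).card +
          ((Finset.range (q - k)).filter fun i => x ∈ H (k + i)).card := h5
        show dg (innerG (remG G M1 (Finset.range k)) A) x +
          dg (crossG (remG G M1 (Finset.range k)) A) x +
          ((Finset.range (q - k)).filter fun i => x ∈ H (k + i)).card + h x = q - k + f
        omega
      Hs := fun i hi => hG.Hs (k + i) (by omega)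
      lit := by
        intro x hx
        refine ⟨?_, (hG.lit x hx).2.trans (mul_le_mul_of_nonneg_right (min_le_right _ _) hNn),
          hdW x⟩
        have h5 := COR_shift k q hkq (fun i => x ∈ H i)
        have h6 : ((Finset.range q).filter fun i => x ∈ H i).card =
          ((Finset.range k).filter fun i => x ∈ H i).card +
          ((Finset.range (q - k)).filter fun i => x ∈ H (k + i)).card := h5
        have h7 : ((Finset.range (q - k)).filter fun i => x ∈ H (k + i)).card ≤
          ((Finset.range q).filter fun i => x ∈ H i).card := by omega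
        have h8 : (((Finset.range (q - k)).filter fun i => x ∈ H (k + i)).card : ℝ) ≤
          (((Finset.range q).filter fun i => x ∈ H i).card : ℝ) := by exact_mod_cast h7
        exact h8.trans ((hG.lit x hx).1.trans
          (mul_le_mul_of_nonneg_right (min_le_right _ _) hNn))
      cdg := hdC
      bal := hG.bal
      szA := hsz.1
      szB := hsz.2
      siz := hG.siz
      e0 := hE0
      e0d := hE0d
      e0A := by
        refine le_trans (le_of_eq ?_) hE0A
        push_cast
        ring
      e0B := by
        refine le_trans (le_of_eq ?_) hE0B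
        push_cast
        ring }
  obtain ⟨M2, hmat2, hcov2, hdis2, hinn2⟩ := hc V _ _ E0 A X (q - k) f _ h hN2 hMid
  have hWC : ∀ v w, (innerG (remG G M1 (Finset.range k)) A ⊔
      crossG (remG G M1 (Finset.range k)) A).Adj v w → (remG G M1 (Finset.range k)).Adj v w := by
    intro v w hvw
    rcases hvw with hvw | hvw
    · exact hvw.1
    · exact hvw.1
  have hcr : ∀ i < k, ∀ j < q - k, ∀ v, M1 i v ≠ v → M1 i v ≠ M2 j v := by
    intro i hi j hj v hv h
    have h1 : M2 j v ≠ v := by rw [← h]; exact hv
    have h2 := hWC _ _ ((hmat2 j hj).2 v h1)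
    exact (h2.2 i (Finset.mem_range.2 hi)).1 h
  refine ⟨fun i => if i < k then M1 i else M2 (i - k), ?_, ?_, ?_, ?_⟩
  · intro i hi
    by_cases h1 : i < k
    · show MatIn G (if i < k then M1 i else M2 (i - k))
      rw [if_pos h1]
      exact hmat i h1
    · show MatIn G (if i < k then M1 i else M2 (i - k))
      rw [if_neg h1]
      have h2 := hmat2 (i - k) (by omega)
      exact ⟨h2.1, fun v hv => (hWC _ _ (h2.2 v hv)).1⟩
  · intro i hi x hx
    by_cases h1 : i < k
    · show (if i < k then M1 i else M2 (i - k)) x = x ↔ x ∈ H i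
      rw [if_pos h1]
      exact hcov i h1 x hx
    · show (if i < k then M1 i else M2 (i - k)) x = x ↔ x ∈ H i
      rw [if_neg h1]
      have h2 := hcov2 (i - k) (by omega) x hx
      have h3 : k + (i - k) = i := by omega
      rw [h3] at h2
      exact h2
  · intro i hi j hj hij v
    show (if i < k then M1 i else M2 (i - k)) v ≠ v →
      (if i < k then M1 i else M2 (i - k)) v ≠ (if j < k then M1 j else M2 (j - k)) v
    by_cases h1 : i < k
    · by_cases h2 : j < k
      · rw [if_pos h1, if_pos h2]
        exact hdis i h1 j h2 hij v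
      · rw [if_pos h1, if_neg h2]
        exact hcr i h1 (j - k) (by omega) v
    · by_cases h2 : j < k
      · rw [if_neg h1, if_pos h2]
        intro h3 h4
        refine hcr j h2 (i - k) (by omega) v ?_ h4.symm
        rw [← h4]
        exact h3
      · rw [if_neg h1, if_neg h2]
        exact hdis2 (i - k) (by omega) (j - k) (by omega) (by omega) v
  · intro v w hvw hA
    by_cases h1 : ∀ i ∈ Finset.range k, M1 i v ≠ w ∧ M1 i w ≠ v
    · obtain ⟨i, hi, h2⟩ := hinn2 v w ⟨⟨hvw, h1⟩, hA⟩
      refine ⟨k + i, by omega, ?_⟩
      show (if k + i < k then M1 (k + i) else M2 (k + i - k)) v = w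
      rw [if_neg (by omega), Nat.add_sub_cancel_left]
      exact h2
    · push Not at h1
      obtain ⟨i, hi, h1⟩ := h1
      have hi' := Finset.mem_range.1 hi
      have h2 : M1 i v = w := by
        by_cases h3 : M1 i v = w
        · exact h3
        · have h4 := h1 h3
          rw [← h4]
          exact (hmat i hi').1 w
      refine ⟨i, by omega, ?_⟩
      show (if i < k then M1 i else M2 (i - k)) v = w
      rw [if_pos hi']
      exact h2

end

end Pool.Agent.OF
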