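import Pool.Agent.helper86.OF.SpecX

/-!
# Module KDG (helper78): degrees after the first phase
-/

open scoped BigOperators

namespace Pool.Agent.OF

noncomputable section

open Classical

theorem KDG_ptn {V : Type} {G : SimpleGraph V} {k : ℕ} {c : Sym2 V → ℕ} (h : PEC G k c)
    {v w : V} (hvw : G.Adj v w) : ptn G c (c s(v, w)) v = w := by
  have h1 : ∃ u, G.Adj v u ∧ c s(v, u) = c s(v, w) := ⟨w, hvw, rfl⟩
  show (if h : ∃ u, G.Adj v u ∧ c s(v, u) = c s(v, w) then h.choose else v) = w
  rw [dif_pos h1]
  exact h.2 v _ _ h1.choose_spec.1 hvw h1.choose_spec.2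

theorem KDG_ptn' {V : Type} (G : SimpleGraph V) (c : Sym2 V → ℕ) (i : ℕ) (v : V) :
    ptn G c i v = v ∨ G.Adj v (ptn G c i v) := by
  by_cases h : ∃ u, G.Adj v u ∧ c s(v, u) = i
  · right
    show G.Adj v (if h : ∃ u, G.Adj v u ∧ c s(v, u) = i then h.choose else v)
    rw [dif_pos h]
    exact h.choose_spec.1
  · left
    show (if h : ∃ u, G.Adj v u ∧ c s(v, u) = i then h.choose else v) = v
    rw [dif_neg h]

theorem KDG : KDG_stmt := by
  intro V _ G A X k c M hc hM
  have hinv : ∀ i < k, ∀ v w, M i w = v → M i v = w := fun i hi v w h => by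
    rw [← h]
    exact (hM.mat i hi).1 w
  refine ⟨fun v => ?_, fun v => ?_, fun x hx => ?_⟩
  · show (Finset.univ.filter fun w => (innerG (remG G M (Finset.range k)) A).Adj v w).card ≤ _
    refine Finset.card_le_card_of_injOn (fun w => c s(v, w)) ?_ ?_
    · intro w hw
      have hw1 := (Finset.mem_filter.1 hw).2
      have hadj : (innerG G A).Adj v w := ⟨hw1.1.1, hw1.2⟩
      have hlt := hc.1 v w hadj
      refine Finset.mem_coe.2 (Finset.mem_filter.2 ⟨Finset.mem_range.2 hlt, ?_⟩)
      rw [KDG_ptn hc hadj]
      exact (hw1.1.2 _ (Finset.mem_range.2 hlt)).1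
    · intro w hw w' hw' h
      have hw1 := (Finset.mem_filter.1 hw).2
      have hw2 := (Finset.mem_filter.1 hw').2
      exact hc.2 v w w' ⟨hw1.1.1, hw1.2⟩ ⟨hw2.1.1, hw2.2⟩ h
  · have hsub : (Finset.univ.filter fun w => (crossG G A).Adj v w) ⊆
        (Finset.univ.filter fun w => (crossG (remG G M (Finset.range k)) A).Adj v w) ∪
        ((Finset.range k).filter fun i => M i v ≠ ptn (innerG G A) c i v).image
          (fun i => M i v) := by
      intro w hw
      have hw1 : (crossG G A).Adj v w := (Finset.mem_filter.1 hw).2
      by_cases h : ∀ i ∈ Finset.range k, M i v ≠ w ∧ M i w ≠ v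
      · exact Finset.mem_union_left _ (Finset.mem_filter.2 ⟨Finset.mem_univ _, ⟨hw1.1, h⟩, hw1.2⟩)
      · push Not at h
        obtain ⟨i, hi, h⟩ := h
        have h2 : M i v = w := by
          by_cases h3 : M i v = w
          · exact h3
          · exact hinv i (Finset.mem_range.1 hi) v w (h h3)
        refine Finset.mem_union_right _ (Finset.mem_image.2 ⟨i, Finset.mem_filter.2 ⟨hi, ?_⟩, h2⟩)
        rw [h2]
        intro h4
        rcases KDG_ptn' (innerG G A) c i v with h5 | h5
        · rw [h5] at h4
          rw [h4] at hw1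
          exact G.loopless.irrefl v hw1.1
        · rw [← h4] at h5
          exact hw1.2 h5.2
    calc dg (crossG G A) v ≤ _ := Finset.card_le_card hsub
      _ ≤ _ := Finset.card_union_le _ _
      _ ≤ _ := Nat.add_le_add_left Finset.card_image_le _
  · have heq : (Finset.univ.filter fun w => G.Adj x w) =
        (Finset.univ.filter fun w => (remG G M (Finset.range k)).Adj x w) ∪
        (Finset.range k).image (fun i => M i x) := by
      ext w
      constructor
      · intro hw
        have hw1 : G.Adj x w := (Finset.mem_filter.1 hw).2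
        by_cases h : ∀ i ∈ Finset.range k, M i x ≠ w ∧ M i w ≠ x
        · exact Finset.mem_union_left _ (Finset.mem_filter.2 ⟨Finset.mem_univ _, hw1, h⟩)
        · push Not at h
          obtain ⟨i, hi, h⟩ := h
          have h2 : M i x = w := by
            by_cases h3 : M i x = w
            · exact h3
            · exact hinv i (Finset.mem_range.1 hi) x w (h h3)
          exact Finset.mem_union_right _ (Finset.mem_image.2 ⟨i, hi, h2⟩)
      · intro hw
        rcases Finset.mem_union.1 hw with hw | hw
        · exact Finset.mem_filter.2 ⟨Finset.mem_univ _, (Finset.mem_filter.1 hw).2.1⟩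
        · obtain ⟨i, hi, rfl⟩ := Finset.mem_image.1 hw
          have hi' := Finset.mem_range.1 hi
          exact Finset.mem_filter.2 ⟨Finset.mem_univ _, (hM.mat i hi').2 x (hM.cov i hi' x hx)⟩
    have hdis : Disjoint (Finset.univ.filter fun w => (remG G M (Finset.range k)).Adj x w)
        ((Finset.range k).image (fun i => M i x)) := by
      rw [Finset.disjoint_left]
      intro w hw hw'
      obtain ⟨i, hi, h⟩ := Finset.mem_image.1 hw'
      exact ((Finset.mem_filter.1 hw).2.2 i hi).1 h
    have hcard : ((Finset.range k).image (fun i => M i x)).card = k := by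
      rw [Finset.card_image_of_injOn, Finset.card_range]
      intro i hi j hj hij
      by_contra hne
      have hi' : i < k := Finset.mem_range.1 (Finset.mem_coe.1 hi)
      have hj' : j < k := Finset.mem_range.1 (Finset.mem_coe.1 hj)
      exact hM.dis i hi' j hj' hne x (hM.cov i hi' x hx) hij
    have h1 : dg G x = (Finset.univ.filter fun w => G.Adj x w).card := rfl
    have h2 : dg (remG G M (Finset.range k)) x =
      (Finset.univ.filter fun w => (remG G M (Finset.range k)).Adj x w).card := rfl
    rw [h1, h2, heq, Finset.card_union_of_disjoint hdis, hcard]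

end

end Pool.Agent.OF
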